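import Pool.Agent.Work.MP_a7ee28_al_h73.Low

set_option autoImplicit false

namespace Pool.Agent.Results.MP_a7ee28_al.ByDiameter

open Module

universe u v

/-- **Full answer.** Let `dim V = d + 1`. If `d = 0` or `d ≥ 3` then, over every field and under
the hypotheses of the problem, the antiautomorphism `†` exists and `Ae` or `Ae^†` is a linear
combination of `I, Z, X, Z X`. For `d = 1` and for `d = 2` this fails: there are examples over `ℚ`
with `q = 2` for which neither `Ae` nor `Ae^†` is such a combination. -/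
theorem result :
    (∀ (K : Type u) (V : Type v) [Field K] [AddCommGroup V] [Module K V] (d : ℕ) (q : K)
      (A As Ae X Xinv Y Z : End K V), d = 0 ∨ 3 ≤ d → Setup d q A As Ae X Xinv Y Z →
        (∃ τ : End K V → End K V, IsDagger A As τ) ∧
        ∀ τ : End K V → End K V, IsDagger A As τ → IsComb Z X Ae ∨ IsComb Z X (τ Ae)) ∧
    (∀ d : ℕ, d = 1 ∨ d = 2 → ∃ A As Ae X Xinv Y Z : End ℚ (Fin (d + 1) → ℚ),
      Setup d (2 : ℚ) A As Ae X Xinv Y Z ∧
        (∃ τ : End ℚ (Fin (d + 1) → ℚ) → End ℚ (Fin (d + 1) → ℚ), IsDagger A As τ) ∧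
        ∀ τ : End ℚ (Fin (d + 1) → ℚ) → End ℚ (Fin (d + 1) → ℚ), IsDagger A As τ →
          ¬ IsComb Z X Ae ∧ ¬ IsComb Z X (τ Ae)) := by
  refine ⟨fun K V _ _ _ d q A As Ae X Xinv Y Z hd S => Pool.LT.positive hd S, fun d hd => ?_⟩
  rcases hd with rfl | rfl
  · exact Pool.LT.Low.example_one
  · exact Pool.LT.Low.example_two

end Pool.Agent.Results.MP_a7ee28_al.ByDiameter
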